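import Mathlib
import Pool.Agent.CAS.Literal
import Pool.Agent.CAS.A
import Pool.Agent.CAS.ASM
import Pool.Agent.CAS.B
import Pool.Agent.CAS.BOX
import Pool.Agent.CAS.C
import Pool.Agent.CAS.CALC
import Pool.Agent.CAS.CLOCK
import Pool.Agent.CAS.COIN
import Pool.Agent.CAS.D
import Pool.Agent.CAS.D2
import Pool.Agent.CAS.DISC
import Pool.Agent.CAS.DOM
import Pool.Agent.CAS.DUAL
import Pool.Agent.CAS.E
import Pool.Agent.CAS.FIN
import Pool.Agent.CAS.FOU
import Pool.Agent.CAS.HA
import Pool.Agent.CAS.HB
import Pool.Agent.CAS.HIT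
import Pool.Agent.CAS.IRR
import Pool.Agent.CAS.KER
import Pool.Agent.CAS.LDP
import Pool.Agent.CAS.LDZ
import Pool.Agent.CAS.LUMP
import Pool.Agent.CAS.MIX
import Pool.Agent.CAS.MOM
import Pool.Agent.CAS.MOM0SB
import Pool.Agent.CAS.MONO
import Pool.Agent.CAS.N1
import Pool.Agent.CAS.PROJSTAB
import Pool.Agent.CAS.R1
import Pool.Agent.CAS.RESTR
import Pool.Agent.CAS.SMALL
import Pool.Agent.CAS.TH0
import Pool.Agent.CAS.TR
import Pool.Agent.CAS.WAC
import Pool.Agent.CAS.WB
import Pool.Agent.CAS.Wrap

/-!
MP_ae5001_pr, full negative answer to Q1: in the annihilating-coalescing system with immobile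
B particles (`λ_A = 1`, `λ_B = 0`) on `ℤ^d`, `d ≥ 100`, the A particles die out for every initial
density `p < 1` of A particles. Hence the survival threshold `p_c` equals one.

Idea of the proof. Keep all the coalescing random walks and kill the clusters which are the first
visitors of a site occupied by a B particle: this kills less than the true system. Lyapunov
functions for the dual voter model with zealots show that the system of coalescing walks is
critical in the following sense: at time `t` a given site is unvisited, or occupied, with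
probability of order `1/t` (on average over the scales), and a cluster discovers in the time
window `(t, 2 t]` a new site with probability bounded below. By soft homogeneity each cluster
carries its share of the alive particles, so if a positive density of A particles survived, a
positive fraction of them would be killed in a positive fraction of the dyadic windows.
-/

open Filter Topology MeasureTheory

namespace Pool.Agent.Results.MP_ae5001_pr.ADiesOut

open Pool.Agent.CAS

theorem result (d : ℕ) (hd : 100 ≤ d) (p : ℝ) (h0 : 0 ≤ p) (h1 : p < 1) :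
    ∀ᵐ ω ∂(casM d p), ω.toOm.typ 0 = true → ∃ T : ℕ, ∀ᶠ m in atTop,
      (ω.toOm.run m T).ld 0 = none := by
  have hTR := t_TR
  have hDUAL := t_DUAL hTR
  have hHIT := t_HIT
  have hKER := t_KER hHIT t_FOU
  have hC := t_C hKER t_LD1 t_LDP t_CALC t_MOM t_MONO
  have hB := t_B hKER t_LD2 t_CALC t_MOM t_MONO
  have hN1 := t_N1 hTR hDUAL hHIT t_MONO
  have hD2 := t_D2 hHIT hKER hTR hDUAL hN1 hB hC t_MONO
  have hD := t_D hKER t_LD0 t_CALC t_MOM0 t_MOM t_MONO
  have hA := t_A hKER t_LD1 t_CALC t_MOM t_MONO t_SMALL
  have hTH0 := t_TH0 hTR hDUAL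
  have hR1 := t_R1 hTR hDUAL hHIT t_WA (t_WB hHIT) t_WC
  have hMIX := t_MIX hTR hDUAL t_MOM0
  have hHA := t_HA hTR hDUAL t_MOM0
  have hHB := t_HB hTR hDUAL t_MOM0 hMIX
  have hH := t_H hHA hHB hTH0
  have hTH := t_TH hA hC hD2 hD hR1 (t_SB t_MONO) hH hTH0 t_MONO t_E
  have hBOX := t_BOX hTH (t_COIN hTR) t_LUMP t_DOM t_DISC t_IRR t_WRAP
  exact t_FIN hBOX t_CLOCK t_PROJ (t_STAB t_DISC) t_RESTR d hd p h0 h1

end Pool.Agent.Results.MP_ae5001_pr.ADiesOut
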